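import Pool.Agent.Helper38.WY.Goals2
import Pool.Agent.Helper32.RD.VAL
import Pool.Agent.Helper42.RD.EXA
import Pool.Agent.Helper79.PP.PVIS
import Pool.Agent.Helper62.PP.Proj

/-!
# Project WY, packet Y_UPB: upper bound for the local conditions at `T`
-/

set_option autoImplicit false
set_option linter.unusedSectionVars false

namespace Pool.Agent.Helper13.WY

open NumberField Polynomial Module IsDedekindDomain
open Pool.Agent.Helper51.RP Pool.Agent.Helper42.PP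
open Pool.Agent.Helper38.WY
open Pool.Agent.Helper40.RS (bel conj_of_bel)
open Pool.Agent.Helper32.RDV (wt mem_PI p_mem_PI)

/-! ## Sequences and the shift -/

section seq

variable {k : Type} [Field k]

/-- the shift -/
def sh (k : Type) [Field k] : (ℕ → k) →ₗ[k] (ℕ → k) where
  toFun F := fun l ↦ F (l + 1)
  map_add' _ _ := rfl
  map_smul' _ _ := rfl

theorem sh_pow (j : ℕ) (F : ℕ → k) (l : ℕ) : ((sh k) ^ j) F l = F (l + j) := by
  induction j generalizing F l with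
  | zero => rfl
  | succ j ih =>
    rw [pow_succ, Module.End.mul_apply, ih]
    rfl

theorem aeval_sh (P : k[X]) (F : ℕ → k) (l : ℕ) :
    (aeval (sh k) P) F l = ∑ j ∈ P.support, P.coeff j * F (l + j) := by
  rw [Polynomial.aeval_def, Polynomial.eval₂_eq_sum, Polynomial.sum_def, LinearMap.sum_apply,
    Finset.sum_apply]
  refine Finset.sum_congr rfl fun j _ ↦ ?_
  rw [Module.End.mul_apply, Module.algebraMap_end_apply, Pi.smul_apply, sh_pow, smul_eq_mul]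

theorem vanish1 {P : k[X]} (hP : P ≠ 0) {F : ℕ → k} (h : aeval (sh k) P F = 0)
    (h0 : ∀ j < P.natDegree, F j = 0) (j : ℕ) : F j = 0 := by
  induction j using Nat.strong_induction_on with
  | _ j ih =>
    rcases lt_or_ge j P.natDegree with hj | hj
    · exact h0 j hj
    · obtain ⟨l, rfl⟩ := Nat.exists_eq_add_of_le' hj
      have h1 := congrFun h l
      rw [aeval_sh, Pi.zero_apply, Finset.sum_eq_single P.natDegree] at h1
      · exact (mul_eq_zero.1 h1).resolve_left (leadingCoeff_ne_zero.2 hP)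
      · intro i hi hne
        have h2 : i < P.natDegree := lt_of_le_of_ne (le_natDegree_of_mem_supp i hi) hne
        rw [ih (l + i) (by omega), mul_zero]
      · intro h2
        exact absurd (natDegree_mem_support_of_nonzero hP) h2

theorem vanish2 {P Q : k[X]} (hc : IsCoprime P Q) {F : ℕ → k} (h : aeval (sh k) P F = 0)
    (h' : aeval (sh k) Q F = 0) : F = 0 := by
  obtain ⟨a, b, hab⟩ := hc
  have h1 : aeval (sh k) (a * P + b * Q) F = F := by rw [hab, map_one]; rfl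
  rw [map_add, map_mul, map_mul, LinearMap.add_apply, Module.End.mul_apply, Module.End.mul_apply,
    h, h', map_zero, map_zero, add_zero] at h1
  exact h1.symm

end seq

/-! ## Functions additive on a subset -/

theorem add_prod {A R : Type} [CommGroup A] [CommRing R] {S : A → Prop} {f : A → R} (h1 : S 1)
    (hm : ∀ x y, S x → S y → S (x * y)) (hf : ∀ x y, S x → S y → f (x * y) = f x + f y) :
    f 1 = 0 ∧ (∀ x (n : ℕ), S x → S (x ^ n) ∧ f (x ^ n) = n * f x) ∧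
    ∀ (s : Finset ℕ) (x : ℕ → A) (n : ℕ → ℕ), (∀ i ∈ s, S (x i)) →
      S (∏ i ∈ s, x i ^ n i) ∧ f (∏ i ∈ s, x i ^ n i) = ∑ i ∈ s, (n i : R) * f (x i) := by
  have h0 : f 1 = 0 := by
    have h2 := hf 1 1 h1 h1
    rw [mul_one] at h2
    exact left_eq_add.1 h2
  have h3 : ∀ x (n : ℕ), S x → S (x ^ n) ∧ f (x ^ n) = n * f x := by
    intro x n hx
    induction n with
    | zero =>
      rw [pow_zero, h0, Nat.cast_zero, zero_mul]
      exact ⟨h1, rfl⟩
    | succ n ih =>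
      rw [pow_succ, hf _ _ ih.1 hx, ih.2, Nat.cast_succ, add_mul, one_mul]
      exact ⟨hm _ _ ih.1 hx, rfl⟩
  refine ⟨h0, h3, fun s x n ↦ ?_⟩
  classical
  induction s using Finset.induction_on with
  | empty =>
    intro _
    rw [Finset.prod_empty, Finset.sum_empty, h0]
    exact ⟨h1, rfl⟩
  | insert i s hi ih =>
    intro hx
    obtain ⟨h4, h5⟩ := ih fun j hj ↦ hx j (Finset.mem_insert_of_mem hj)
    obtain ⟨h6, h7⟩ := h3 (x i) (n i) (hx i (Finset.mem_insert_self i s))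
    rw [Finset.prod_insert hi, Finset.sum_insert hi, hf _ _ h6 h4, h5, h7]
    exact ⟨hm _ _ h6 h4, rfl⟩

/-- representatives of the classes which meet a predicate -/
theorem reps {A : Type} [Finite A] (r : A → A → Prop) (hr : Equivalence r) (S : A → Prop) :
    ∃ (b : ℕ) (σ : Fin b → A), (∀ i, S (σ i)) ∧ (∀ i j, r (σ i) (σ j) → i = j) ∧
      ∀ a, S a → ∃ i, r a (σ i) := by
  classical
  let s : Setoid {a : A // S a} := ⟨fun a b ↦ r a b, ⟨fun a ↦ hr.refl _, hr.symm, hr.trans⟩⟩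
  have : Finite (Quotient s) := inferInstance
  let e := (Finite.equivFin (Quotient s)).symm
  refine ⟨Nat.card (Quotient s), fun i ↦ ((e i).out : A), fun i ↦ (e i).out.2, ?_, ?_⟩
  · intro i j hij
    have h1 : (⟦(e i).out⟧ : Quotient s) = ⟦(e j).out⟧ := Quotient.sound hij
    rw [Quotient.out_eq, Quotient.out_eq] at h1
    exact e.injective h1
  · intro a ha
    refine ⟨e.symm ⟦⟨a, ha⟩⟧, ?_⟩
    have h1 : (⟦⟨a, ha⟩⟧ : Quotient s) = ⟦(e (e.symm ⟦⟨a, ha⟩⟧)).out⟧ := by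
      rw [Quotient.out_eq, Equiv.apply_symm_apply]
    exact Quotient.exact h1

/-! ## Embeddings in `ℂ_p` -/

section emb

variable {p : ℕ} [hp : Fact p.Prime]

/-- an embedding extends -/
theorem exists_ext {K E : Type} [Field K] [NumberField K] [Field E] [NumberField E] [Algebra K E]
    (σ : K →+* ℂ_[p]) : ∃ τ : E →+* ℂ_[p], τ.comp (algebraMap K E) = σ := by
  let := σ.toAlgebra
  have : Algebra.IsAlgebraic K E := Algebra.IsAlgebraic.of_finite K E
  let f : E →ₐ[K] ℂ_[p] := IsAlgClosed.lift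
  refine ⟨f.toRingHom, ?_⟩
  ext x
  exact f.commutes x

/-- embeddings which are the same on `K` up to the absolute value induce conjugate primes -/
theorem transfer (hPWA : Y_PWA) {K M : Type} [Field K] [NumberField K] [Field M] [NumberField M]
    [Algebra K M] [IsGalois K M] {δ : M ≃ₐ[K] M} (hδ : ∀ g : M ≃ₐ[K] M, ∃ j : ℕ, g = δ ^ j)
    {τ' ρ : M →+* ℂ_[p]}
    (h : SamePl p (τ'.comp (algebraMap K M)) (ρ.comp (algebraMap K M))) {z : M} (hz : z ≠ 0)
    (hρ : ∀ j : ℕ, PwT p ρ ((δ ^ j) z)) : PwT p τ' z := by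
  obtain ⟨h1, -, -⟩ := hPWA p
  have hb : bel K (wt p ρ) = bel K (wt p τ') := by
    apply HeightOneSpectrum.ext
    ext x
    have e1 : ∀ ν : M →+* ℂ_[p], x ∈ (bel K (wt p ν)).asIdeal ↔
        ‖(ν.comp (algebraMap K M)) (x : K)‖ < 1 := by
      intro ν
      exact mem_PI ν (algebraMap (𝓞 K) (𝓞 M) x)
    rw [e1, e1, h]
  obtain ⟨g, hg⟩ := conj_of_bel (wt p ρ) (wt p τ') hb
  obtain ⟨j, rfl⟩ := hδ g
  have h2 := h1 M (wt p τ') τ' (fun b ↦ mem_PI τ' b) z hz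
  have h3 := h1 M (wt p τ') (ρ.comp ((δ ^ j : M ≃ₐ[K] M) : M →+* M)) (fun b ↦ by
    have e2 : ‖(ρ.comp ((δ ^ j : M ≃ₐ[K] M) : M →+* M)) (b : M)‖ < 1 ↔
        (wt p ρ).valuation M ((δ ^ j) (b : M)) < 1 := by
      let gb : 𝓞 M := ⟨(δ ^ j) (b : M), map_isIntegral_int (δ ^ j : M ≃ₐ[K] M) b.2⟩
      have e3 := (wt p ρ).valuation_lt_one_iff_mem (K := M) gb
      exact (e3.trans (mem_PI ρ gb)).symm
    rw [e2, hg]
    exact ((wt p τ').valuation_lt_one_iff_mem (K := M) b).symm) z hz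
  rw [← h2, h3]
  obtain ⟨t, ht, hte⟩ := hρ j
  refine ⟨t, ?_, hte⟩
  have e4 : Set.range (ρ.comp ((δ ^ j : M ≃ₐ[K] M) : M →+* M)) = Set.range ρ := by
    ext y
    constructor
    · rintro ⟨x, rfl⟩
      exact ⟨(δ ^ j) x, rfl⟩
    · rintro ⟨x, rfl⟩
      refine ⟨(δ ^ j).symm x, ?_⟩
      show ρ ((δ ^ j) ((δ ^ j).symm x)) = ρ x
      rw [AlgEquiv.apply_symm_apply]
  rw [e4]
  exact ht

/-- conjugation of `SigT` -/
theorem sig_conj (hSGB : Y_SGB) {K E : Type} [Field K] [Field E] [NumberField E] [Algebra K E]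
    {τ : E →+* ℂ_[p]} {ε α : E} (hε : IsPrimitiveRoot ε p) (hα : α ≠ 0) (hom : OmType p K ε α)
    (g : E ≃ₐ[K] E) {x : E} (h : SigT p (τ.comp (g : E →+* E)) ε α x) : SigT p τ ε α (g x) := by
  obtain ⟨n, c, hn, hc⟩ := hom g
  have hgε : IsPrimitiveRoot (g ε) p := hε.map_of_injective g.injective
  rw [hn] at hgε
  have hcop : n.Coprime p := (hε.pow_iff_coprime hp.out.pos n).1 hgε
  have hc0 : c ≠ 0 := by
    rintro rfl
    rw [zero_pow hp.out.ne_zero, mul_zero] at hc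
    exact hα ((map_eq_zero g).1 hc)
  have h7 := ((hSGB p E τ ε α hε hα).2.2.2.2.2.2 (g : E ≃+* E) x).2 h
  have e1 : (g : E ≃+* E) ε = ε ^ n := hn
  have e2 : (g : E ≃+* E) α = α ^ n * c ^ p := hc
  rw [e1, e2] at h7
  have hα' : α ^ n * c ^ p ≠ 0 := mul_ne_zero (pow_ne_zero _ hα) (pow_ne_zero _ hc0)
  have h5 := ((hSGB p E τ ε (α ^ n * c ^ p) hε hα').2.2.2.2.1 n hcop _).1 h7
  exact ((hSGB p E τ ε α hε hα).2.2.2.1 n c hcop hc0 _).1 h5

end emb

/-! ## The main argument -/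

section main

variable {p : ℕ} [hp : Fact p.Prime] {K M M₁ M₂ : Type} [Field K] [NumberField K] [Field M]
  [NumberField M] [Field M₁] [NumberField M₁] [Field M₂] [NumberField M₂] [Algebra K M]
  [Algebra K M₁] [Algebra K M₂] [Algebra M M₁] [Algebra M M₂] [Algebra M₁ M₂] {ε : M₁}
  {δ : M ≃ₐ[K] M} {P : (ZMod p)[X]} {α : M₂}

/-- the local conditions at the places of `T` -/
def Sall (p : ℕ) [Fact p.Prime] {K M M₂ : Type} [Field K] [Field M] [Field M₂] [Algebra K M₂]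
    [Algebra M M₂] (ε α : M₂) (T : Set (K →+* ℂ_[p])) (z : Mˣ) : Prop :=
  ∀ τ ∈ (above T : Set (M₂ →+* ℂ_[p])), SigT p τ ε α (algebraMap M M₂ (z : M))

theorem sall_div (hSGB : Y_SGB) {ε₂ : M₂} (hε : IsPrimitiveRoot ε₂ p) (hα : α ≠ 0)
    {T : Set (K →+* ℂ_[p])} {x y : Mˣ} (hx : Sall p ε₂ α T x) (hy : Sall p ε₂ α T y) :
    Sall p ε₂ α T (x / y) := by
  intro τ hτ
  obtain ⟨-, h2, h3, -⟩ := hSGB p M₂ τ ε₂ α hε hα
  have e : algebraMap M M₂ ((x / y : Mˣ) : M) =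
      algebraMap M M₂ (x : M) * (algebraMap M M₂ (y : M))⁻¹ := by
    rw [Units.val_div_eq_div_val, map_div₀, div_eq_mul_inv]
  rw [e]
  exact h2 _ _ (hx τ hτ) (h3 _ ((_root_.map_ne_zero _).2 y.ne_zero) (hy τ hτ))

theorem gen_pow (hG : SitG p K M M₁ M₂ ε δ P α) (g : M ≃ₐ[K] M) : ∃ j : ℕ, g = δ ^ j := by
  have := hG.gM
  have h1 : Nat.card (Subgroup.zpowers δ) = Nat.card (M ≃ₐ[K] M) := by
    rw [Nat.card_zpowers, hG.ord, IsGalois.card_aut_eq_finrank]
  have h2 := Subgroup.eq_top_of_card_eq _ h1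
  have h3 : g ∈ Subgroup.zpowers δ := by
    rw [h2]
    exact Subgroup.mem_top g
  rw [← mem_powers_iff_mem_zpowers] at h3
  obtain ⟨j, hj⟩ := h3
  exact ⟨j, hj.symm⟩

theorem act_act (i j : ℕ) (x : Mˣ) : act (δ ^ i) (act (δ ^ j) x) = act (δ ^ (i + j)) x := by
  rw [pow_add]
  rfl

theorem pol_apply (c : (ZMod p)[X]) (x : Mˣ) :
    pol c δ x = ∏ j ∈ c.support, (act (δ ^ j) x) ^ (c.coeff j).val := by
  unfold pol
  rw [MonoidHom.finsetProd_apply]
  rfl

theorem pack (hLIN : Y_LIN) (hSGB : Y_SGB) (hPWA : Y_PWA) (hG : SitG p K M M₁ M₂ ε δ P α)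
    (T : Set (K →+* ℂ_[p])) (τ : M₂ →+* ℂ_[p]) (hτ : τ ∈ (above T : Set (M₂ →+* ℂ_[p]))) :
    ∃ f : M₁ˣ → ZMod p,
      (∀ x y : Mˣ, Sall p (algebraMap M₁ M₂ ε) α T x → Sall p (algebraMap M₁ M₂ ε) α T y →
        ∀ j : ℕ, f (inc M M₁ (act (δ ^ j) (x * y))) =
          f (inc M M₁ (act (δ ^ j) x)) + f (inc M M₁ (act (δ ^ j) y))) ∧
      (∀ z : Mˣ, Sall p (algebraMap M₁ M₂ ε) α T z → Pw p (pol P δ z) →
        aeval (sh (ZMod p)) P (fun j ↦ f (inc M M₁ (act (δ ^ j) z))) = 0) ∧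
      (∀ z : Mˣ, Sall p (algebraMap M₁ M₂ ε) α T z → (∀ j : ℕ, f (inc M M₁ (act (δ ^ j) z)) = 0) →
        ∀ j : ℕ, PwT p (τ.comp (algebraMap M M₂)) ((δ ^ j) (z : M))) ∧
      ∀ (z : Mˣ) (g : M₂ ≃ₐ[K] M₂) (t n : ℕ), Sall p (algebraMap M₁ M₂ ε) α T z →
        (∀ y : M₂, ‖τ (g y)‖ = ‖τ y‖) →
        (∀ x : M, g (algebraMap M M₂ x) = algebraMap M M₂ ((δ ^ t) x)) →
        g (algebraMap M₁ M₂ ε) = (algebraMap M₁ M₂ ε) ^ n →
        ∀ j : ℕ, f (inc M M₁ (act (δ ^ (j + t)) z)) = n * f (inc M M₁ (act (δ ^ j) z)) := by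
  have := hG.s1
  have := hG.s2
  have := hG.s3
  have := hG.s4
  have := hG.gM
  have := hG.gM₁
  have := hG.gM₂
  have hε₂ : IsPrimitiveRoot (algebraMap M₁ M₂ ε) p :=
    hG.prim.map_of_injective (algebraMap M₁ M₂).injective
  obtain ⟨f, f1, f2, f3⟩ := hLIN p K M M₁ M₂ ε δ P α hG τ
  obtain ⟨g1, g2, -⟩ := hSGB p M₂ τ (algebraMap M₁ M₂ ε) α hε₂ hG.ne
  -- the conjugates satisfy the local conditions
  have hS : ∀ (z : Mˣ), Sall p (algebraMap M₁ M₂ ε) α T z → ∀ j : ℕ,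
      SigT p τ (algebraMap M₁ M₂ ε) α
        (algebraMap M₁ M₂ ((inc M M₁ (act (δ ^ j) z) : M₁ˣ) : M₁)) := by
    intro z hz j
    have e1 : algebraMap M₁ M₂ ((inc M M₁ (act (δ ^ j) z) : M₁ˣ) : M₁) =
        (AlgEquiv.liftNormal (δ ^ j) M₂) (algebraMap M M₂ (z : M)) := by
      rw [AlgEquiv.liftNormal_commutes]
      exact (IsScalarTower.algebraMap_apply M M₁ M₂ ((δ ^ j) (z : M))).symm
    rw [e1]
    refine sig_conj hSGB hε₂ hG.ne hG.om _ (hz _ ?_)
    show (τ.comp ((AlgEquiv.liftNormal (δ ^ j) M₂ : M₂ ≃ₐ[K] M₂) : M₂ →+* M₂)).comp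
      (algebraMap K M₂) ∈ T
    have e2 : (τ.comp ((AlgEquiv.liftNormal (δ ^ j) M₂ : M₂ ≃ₐ[K] M₂) : M₂ →+* M₂)).comp
        (algebraMap K M₂) = τ.comp (algebraMap K M₂) := by
      ext x
      show τ ((AlgEquiv.liftNormal (δ ^ j) M₂) (algebraMap K M₂ x)) = τ (algebraMap K M₂ x)
      rw [AlgEquiv.commutes]
    rw [e2]
    exact hτ
  have S1 : SigT p τ (algebraMap M₁ M₂ ε) α (algebraMap M₁ M₂ ((1 : M₁ˣ) : M₁)) := by
    refine g1 _ ⟨1, subset_closure ⟨1, map_one τ⟩, ?_⟩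
    rw [Units.val_one, map_one, map_one, one_pow]
  have Sm : ∀ x y : M₁ˣ, SigT p τ (algebraMap M₁ M₂ ε) α (algebraMap M₁ M₂ (x : M₁)) →
      SigT p τ (algebraMap M₁ M₂ ε) α (algebraMap M₁ M₂ (y : M₁)) →
      SigT p τ (algebraMap M₁ M₂ ε) α (algebraMap M₁ M₂ ((x * y : M₁ˣ) : M₁)) := by
    intro x y hx hy
    rw [Units.val_mul, map_mul]
    exact g2 _ _ hx hy
  obtain ⟨a0, a1, a2⟩ := add_prod
    (S := fun x : M₁ˣ ↦ SigT p τ (algebraMap M₁ M₂ ε) α (algebraMap M₁ M₂ (x : M₁))) S1 Sm f1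
  refine ⟨f, ?_, ?_, ?_, ?_⟩
  · intro x y hx hy j
    rw [map_mul, map_mul]
    exact f1 _ _ (hS x hx j) (hS y hy j)
  · intro z hz ⟨w, hw⟩
    ext l
    rw [aeval_sh, Pi.zero_apply]
    have e1 : inc M M₁ (act (δ ^ l) (pol P δ z)) =
        ∏ j ∈ P.support, inc M M₁ (act (δ ^ (l + j)) z) ^ (P.coeff j).val := by
      rw [pol_apply, map_prod, map_prod]
      refine Finset.prod_congr rfl fun j _ ↦ ?_
      rw [map_pow, map_pow, act_act]
    have e2 : inc M M₁ (act (δ ^ l) (pol P δ z)) = (inc M M₁ (act (δ ^ l) w)) ^ p := by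
      rw [hw, map_pow, map_pow]
    have h1 := (a2 P.support (fun j ↦ inc M M₁ (act (δ ^ (l + j)) z)) (fun j ↦ (P.coeff j).val)
      fun j _ ↦ hS z hz (l + j)).2
    have h2 : f ((inc M M₁ (act (δ ^ l) w)) ^ p) = 0 := by
      have h3 : ∃ t ∈ closure (Set.range (τ.comp (algebraMap M₁ M₂))), t ^ p =
          (τ.comp (algebraMap M₁ M₂)) (((inc M M₁ (act (δ ^ l) w)) ^ p : M₁ˣ) : M₁) :=
        ⟨(τ.comp (algebraMap M₁ M₂)) ((inc M M₁ (act (δ ^ l) w) : M₁ˣ) : M₁),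
          subset_closure ⟨_, rfl⟩, by rw [Units.val_pow_eq_pow_val, map_pow]⟩
      refine (f2 _ ?_).2 h3
      refine g1 _ ⟨τ (algebraMap M₁ M₂ ((inc M M₁ (act (δ ^ l) w) : M₁ˣ) : M₁)),
        subset_closure ⟨_, rfl⟩, ?_⟩
      rw [Units.val_pow_eq_pow_val, map_pow, map_pow]
    rw [← e2, e1, h1] at h2
    rw [← h2]
    refine Finset.sum_congr rfl fun j _ ↦ ?_
    rw [ZMod.natCast_zmod_val]
  · intro z hz h0 j
    have h1 := (f2 _ (hS z hz j)).1 (h0 j)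
    have h2 : (finrank M M₁).Coprime p := by
      have h3 : finrank K M * finrank M M₁ = finrank K M₁ := Module.finrank_mul_finrank K M M₁
      exact Nat.Coprime.coprime_dvd_left ⟨_, by rw [← h3, mul_comm]⟩ hG.cop
    have : IsGalois M M₁ := IsGalois.tower_top_of_isGalois K M M₁
    have h4 := (hPWA p).2.2 M M₁ h2 (τ.comp (algebraMap M₁ M₂)) ((δ ^ j) (z : M))
      (by
        intro h5
        exact z.ne_zero ((map_eq_zero (δ ^ j)).1 h5)) h1
    have e : (τ.comp (algebraMap M₁ M₂)).comp (algebraMap M M₁) = τ.comp (algebraMap M M₂) := by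
      ext x
      show τ (algebraMap M₁ M₂ (algebraMap M M₁ x)) = τ (algebraMap M M₂ x)
      rw [← IsScalarTower.algebraMap_apply M M₁ M₂]
    rwa [e] at h4
  · intro z g t n hz hgn hgt hgε j
    have hr : ∀ y : M₁, algebraMap M₁ M₂ ((g.restrictNormal M₁) y) = g (algebraMap M₁ M₂ y) :=
      fun y ↦ AlgEquiv.restrictNormal_commutes g M₁ y
    have e1 : act (g.restrictNormal M₁) (inc M M₁ (act (δ ^ j) z)) =
        inc M M₁ (act (δ ^ (j + t)) z) := by
      apply Units.ext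
      apply (algebraMap M₁ M₂).injective
      show algebraMap M₁ M₂ ((g.restrictNormal M₁) (algebraMap M M₁ ((δ ^ j) (z : M)))) =
        algebraMap M₁ M₂ (algebraMap M M₁ ((δ ^ (j + t)) (z : M)))
      rw [hr, ← IsScalarTower.algebraMap_apply M M₁ M₂, ← IsScalarTower.algebraMap_apply M M₁ M₂,
        hgt, add_comm j t, pow_add]
      rfl
    have h1 := f3 g (g.restrictNormal M₁) n hgn (fun y ↦ (hr y).symm) (by
      apply (algebraMap M₁ M₂).injective
      rw [hr, hgε, map_pow]) (inc M M₁ (act (δ ^ j) z)) (hS z hz j) (by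
        rw [e1]
        exact hS z hz (j + t))
    rw [e1] at h1
    exact h1

end main

/-- **Y_UPB**. -/
theorem y_upb (hLIN : Y_LIN) (hSGB : Y_SGB) (hPWA : Y_PWA) : Y_UPB := by
  classical
  intro p hp K M M₁ M₂ _ _ _ _ _ _ _ _ _ _ _ _ _ _ ε δ P α hG T
  have := hG.gM
  have hε₂ : IsPrimitiveRoot (algebraMap M₁ M₂ ε) p :=
    hG.prim.map_of_injective (algebraMap M₁ M₂).injective
  have hP0 : P ≠ 0 := hG.irr.ne_zero
  obtain ⟨b, σ, s1, s2, s3⟩ := reps (A := K →+* ℂ_[p]) (SamePl p)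
    ⟨fun _ _ ↦ rfl, fun h x ↦ (h x).symm, fun h h' x ↦ (h x).trans (h' x)⟩
    (fun σ ↦ σ ∈ T ∧ OmP M₂ (algebraMap M₁ M₂ ε) δ P σ)
  refine ⟨b, σ, s1, s2, fun F hF hsep ↦ ?_⟩
  choose τ hτ using fun i : Fin b ↦ exists_ext (E := M₂) (σ i)
  have hτT : ∀ i, τ i ∈ (above T : Set (M₂ →+* ℂ_[p])) := by
    intro i
    show (τ i).comp (algebraMap K M₂) ∈ T
    rw [hτ i]
    exact (s1 i).1
  choose f f1 f2 f3 f4 using fun i : Fin b ↦ pack hLIN hSGB hPWA hG T (τ i) (hτT i)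
  have hall : ∀ z : Mˣ, Sall p (algebraMap M₁ M₂ ε) α T z → Pw p (pol P δ z) →
      (∀ i : Fin b, ∀ j < P.natDegree, f i (inc M M₁ (act (δ ^ j) z)) = 0) →
      ∀ τ' ∈ (above T : Set (M →+* ℂ_[p])), PwT p τ' (z : M) := by
    intro z hz hpol h0 τ' hτ'
    have hcomp : ∀ ρ : M₂ →+* ℂ_[p], (ρ.comp (algebraMap M M₂)).comp (algebraMap K M) =
        ρ.comp (algebraMap K M₂) := by
      intro ρ
      have := hG.s4
      ext x
      show ρ (algebraMap M M₂ (algebraMap K M x)) = ρ (algebraMap K M₂ x)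
      rw [← IsScalarTower.algebraMap_apply K M M₂]
    by_cases hOm : OmP M₂ (algebraMap M₁ M₂ ε) δ P (τ'.comp (algebraMap K M))
    · obtain ⟨i, hi⟩ := s3 (τ'.comp (algebraMap K M)) ⟨hτ', hOm⟩
      refine transfer hPWA (gen_pow hG) (ρ := (τ i).comp (algebraMap M M₂)) ?_ z.ne_zero
        (f3 i z hz (vanish1 hP0 (f2 i z hz hpol) (h0 i)))
      rw [hcomp, hτ i]
      exact hi
    · unfold OmP at hOm
      push Not at hOm
      obtain ⟨ρ, hρ, g, t, n, g1, g2, g3, g4⟩ := hOm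
      have hρT : ρ ∈ (above T : Set (M₂ →+* ℂ_[p])) := by
        show ρ.comp (algebraMap K M₂) ∈ T
        rw [hρ]
        exact hτ'
      obtain ⟨f', -, f2', f3', f4'⟩ := pack hLIN hSGB hPWA hG T ρ hρT
      have hv : (fun j ↦ f' (inc M M₁ (act (δ ^ j) z))) = 0 := by
        refine vanish2 ((Irreducible.coprime_iff_not_dvd hG.irr).2 g4) (f2' z hz hpol) ?_
        ext l
        rw [map_sub, map_pow, aeval_X, aeval_C, LinearMap.sub_apply, Pi.sub_apply, sh_pow,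
          Module.algebraMap_end_apply, Pi.smul_apply, f4' z g t n hz g1 g2 g3 l, smul_eq_mul,
          sub_self]
        rfl
      refine transfer hPWA (gen_pow hG) (ρ := ρ.comp (algebraMap M M₂)) ?_ z.ne_zero
        (f3' z hz fun j ↦ congrFun hv j)
      rw [hcomp, hρ]
      exact fun _ ↦ rfl
  have hinj : Set.InjOn (fun (x : Mˣ) (i : Fin b) (j : Fin P.natDegree) ↦
      f i (inc M M₁ (act (δ ^ (j : ℕ)) x))) F := by
    intro x hx y hy hxy
    by_contra hne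
    obtain ⟨τ', hτ', hn⟩ := hsep x hx y hy hne
    refine hn (hall (x / y) (sall_div hSGB hε₂ hG.ne (hF x hx).2 (hF y hy).2) ?_ ?_ τ' hτ')
    · rw [_root_.map_div]
      exact Pool.Agent.Helper62.PP.Pw_div (hF x hx).1 (hF y hy).1
    · intro i j hj
      have h1 := f1 i (x / y) y (sall_div hSGB hε₂ hG.ne (hF x hx).2 (hF y hy).2) (hF y hy).2 j
      rw [div_mul_cancel] at h1
      have h2 := congrFun (congrFun hxy i) ⟨j, hj⟩
      simp only at h2
      rw [h2] at h1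
      exact right_eq_add.1 h1
  have h1 := Finset.card_le_card_of_injOn (s := F) (t := Finset.univ) _ (fun _ _ ↦ Finset.mem_univ _)
    hinj
  refine h1.trans ?_
  rw [Finset.card_univ, Fintype.card_fun, Fintype.card_fun, ZMod.card, Fintype.card_fin,
    Fintype.card_fin, ← pow_mul]

end Pool.Agent.Helper13.WY
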