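import Pool.Agent.Helper38.WY.Goals4
import Pool.Agent.Helper53.PW.LCLO
import Pool.Agent.Helper12.PW.WHIL
import Pool.Agent.Helper35.WY.ZKLG

/-!
# Project WY (MP_fc6b1e_nt), packet Z_LIM: the limit
-/

set_option autoImplicit false

namespace Pool.Agent.Helper13.WY

open NumberField Polynomial Module Filter Topology
open Pool.Agent.Helper51.SigLeo Pool.Agent.Helper38.WY

section aux

variable {p : ℕ} [Fact p.Prime]

/-- the image of a unit has norm one -/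
theorem nu {H : Type} [Field H] [NumberField H] (τ : H →+* ℂ_[p]) (b : (𝓞 H)ˣ) :
    ‖τ (b : H)‖ = 1 := by
  have h1 : ‖τ (b : H)‖ ≤ 1 := norm_map_le_one p τ (RingOfIntegers.isIntegral_coe _)
  have h2 : ‖τ ((b⁻¹ : (𝓞 H)ˣ) : H)‖ ≤ 1 := norm_map_le_one p τ (RingOfIntegers.isIntegral_coe _)
  have h3 : τ (b : H) * τ ((b⁻¹ : (𝓞 H)ˣ) : H) = 1 := by
    rw [← map_mul, ← map_mul (algebraMap (𝓞 H) H), Units.mul_inv, map_one, map_one]
  have h4 : ‖τ (b : H)‖ * ‖τ ((b⁻¹ : (𝓞 H)ˣ) : H)‖ = 1 := by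
    rw [← norm_mul, h3, norm_one]
  have h5 : 0 ≤ ‖τ (b : H)‖ := norm_nonneg _
  nlinarith

/-- a convergent subsequence -/
theorem subs (𝓗 : IntermediateField ℚ_[p] ℂ_[p]) [FiniteDimensional ℚ_[p] 𝓗]
    (v : ℕ → ℕ → ℂ_[p]) (h1 : ∀ N l, v N l ∈ 𝓗) (h2 : ∀ N l, ‖v N l‖ ≤ 1) :
    ∃ (φ : ℕ → ℕ) (B : ℕ → ℂ_[p]), StrictMono φ ∧ (∀ l, B l ∈ 𝓗) ∧
      ∀ l, Tendsto (fun k ↦ v (φ k) l) atTop (𝓝 (B l)) := by
  have hproper : ProperSpace 𝓗 := FiniteDimensional.proper ℚ_[p] 𝓗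
  have hc : IsCompact (Metric.closedBall (0 : 𝓗) 1) := isCompact_closedBall 0 1
  have hc' : IsCompact ((fun x : 𝓗 ↦ (x : ℂ_[p])) '' Metric.closedBall (0 : 𝓗) 1) :=
    hc.image continuous_subtype_val
  have hpi : IsCompact {x : ℕ → ℂ_[p] | ∀ l,
      x l ∈ (fun x : 𝓗 ↦ (x : ℂ_[p])) '' Metric.closedBall (0 : 𝓗) 1} :=
    isCompact_pi_infinite fun _ ↦ hc'
  obtain ⟨B, hB, φ, hφ, hlim⟩ := hpi.tendsto_subseq (x := v) (fun N l ↦
    ⟨⟨v N l, h1 N l⟩, by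
      rw [mem_closedBall_zero_iff]
      exact h2 N l, rfl⟩)
  refine ⟨φ, B, hφ, fun l ↦ ?_, fun l ↦ ?_⟩
  · obtain ⟨x, -, hx⟩ := hB l
    rw [← hx]
    exact x.2
  · exact (tendsto_pi_nhds.1 hlim) l

theorem log_inv (L : IwasawaLog p ℂ_[p]) (u : ℂ_[p]ˣ) : L.toFun u⁻¹ = - L.toFun u := by
  have h1 : L.toFun 1 = 0 := by
    have h := L.map_mul 1 1
    rw [mul_one] at h
    linear_combination -h
  have h2 := L.map_mul u u⁻¹
  rw [mul_inv_cancel, h1] at h2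
  linear_combination -h2

/-- the logarithm of the limit -/
theorem log_lim (L : IwasawaLog p ℂ_[p]) (w : ℕ → ℂ_[p]ˣ) (e : ℂ_[p]ˣ)
    (h1 : Tendsto (fun k ↦ (w k : ℂ_[p])) atTop (𝓝 (e : ℂ_[p])))
    (h2 : Tendsto (fun k ↦ ‖L.toFun (w k)‖) atTop (𝓝 0)) : L.toFun e = 0 := by
  have h3 : Tendsto (fun k ↦ ((e * (w k)⁻¹ : ℂ_[p]ˣ) : ℂ_[p]) - 1) atTop (𝓝 0) := by
    have h4 : Tendsto (fun k ↦ (e : ℂ_[p]) * ((w k : ℂ_[p]))⁻¹ - 1) atTop
        (𝓝 ((e : ℂ_[p]) * (e : ℂ_[p])⁻¹ - 1)) :=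
      ((h1.inv₀ e.ne_zero).const_mul _).sub_const 1
    rw [mul_inv_cancel₀ e.ne_zero, sub_self] at h4
    refine h4.congr fun k ↦ ?_
    rw [Units.val_mul, Units.val_inv_eq_inv_val]
  have h5 : Tendsto (fun k ↦ ‖L.toFun (w k)‖ + ‖((e * (w k)⁻¹ : ℂ_[p]ˣ) : ℂ_[p]) - 1‖) atTop
      (𝓝 0) := by
    have := h2.add h3.norm
    rwa [norm_zero, add_zero] at this
  have hp : (0 : ℝ) < (p : ℝ)⁻¹ := by
    have : 0 < p := (Fact.out : p.Prime).pos
    positivity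
  have h6 : ∀ᶠ k in atTop, ‖L.toFun e‖ ≤
      ‖L.toFun (w k)‖ + ‖((e * (w k)⁻¹ : ℂ_[p]ˣ) : ℂ_[p]) - 1‖ := by
    have h7 : ∀ᶠ k in atTop, ‖((e * (w k)⁻¹ : ℂ_[p]ˣ) : ℂ_[p]) - 1‖ < (p : ℝ)⁻¹ := by
      have h8 := h3.norm
      rw [norm_zero] at h8
      exact h8.eventually (gt_mem_nhds hp)
    filter_upwards [h7] with k hk
    have h9 := Pool.Agent.Helper39.RP.log_le L _ hk.le
    have h10 : L.toFun e = L.toFun (w k) + L.toFun (e * (w k)⁻¹) := by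
      rw [← L.map_mul, mul_comm e, mul_inv_cancel_left]
    rw [h10]
    exact (norm_add_le _ _).trans (by linarith)
  have h11 : ‖L.toFun e‖ ≤ 0 := ge_of_tendsto h5 h6
  exact norm_le_zero_iff.1 h11

/-- coefficients from the conjugates: the linear system is invertible -/
theorem vdm (ε β : ℂ_[p]) (hε : IsPrimitiveRoot ε p) (hβ : β ≠ 0) :
    ((Matrix.vandermonde fun l : Fin p ↦ ε ^ (l : ℕ) * β) : Matrix (Fin p) (Fin p) ℂ_[p]).det ≠ 0 := by
  rw [Matrix.det_vandermonde_ne_zero_iff]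
  intro i j hij
  have h1 : ε ^ (i : ℕ) = ε ^ (j : ℕ) := mul_right_cancel₀ hβ hij
  exact Fin.ext (hε.pow_inj i.2 j.2 h1)

/-- the limit of the coefficients -/
theorem coef (ε β : ℂ_[p]) (hε : IsPrimitiveRoot ε p) (hβ : β ≠ 0) (Z : Set ℂ_[p]) (h0 : 0 ∈ Z)
    (w : ℕ → ℕ → ℂ_[p]) (t : ℕ → ℂ_[p]) (zN : ℕ → ℕ → ℂ_[p]) (hz : ∀ N j, zN N j ∈ Z)
    (hw : ∀ N l, w N l = cjs p ε β (zN N) l)
    (hlim : ∀ l, Tendsto (fun N ↦ w N l) atTop (𝓝 (t l))) :
    ∃ z : ℕ → ℂ_[p], (∀ j, z j ∈ closure Z) ∧ ∀ l, cjs p ε β z l = t l := by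
  set V : Matrix (Fin p) (Fin p) ℂ_[p] := Matrix.vandermonde fun l : Fin p ↦ ε ^ (l : ℕ) * β with hV
  have hdet : IsUnit V.det := isUnit_iff_ne_zero.2 (vdm ε β hε hβ)
  have hcjs : ∀ (z : ℕ → ℂ_[p]) (l : Fin p),
      V.mulVec (fun j : Fin p ↦ z j) l = cjs p ε β z l := by
    intro z l
    rw [Matrix.mulVec, dotProduct, cjs, ← Fin.sum_univ_eq_sum_range]
    refine Finset.sum_congr rfl fun j _ ↦ ?_
    rw [hV, Matrix.vandermonde_apply, mul_comm]
  have h1 : ∀ N, (fun j : Fin p ↦ zN N j) = V⁻¹.mulVec (fun l : Fin p ↦ w N l) := by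
    intro N
    have h2 : (fun l : Fin p ↦ w N l) = V.mulVec (fun j : Fin p ↦ zN N j) := by
      funext l
      rw [hcjs, hw]
    rw [h2, Matrix.mulVec_mulVec, Matrix.nonsing_inv_mul _ hdet, Matrix.one_mulVec]
  have h2 : Tendsto (fun N ↦ (fun j : Fin p ↦ zN N j)) atTop
      (𝓝 (V⁻¹.mulVec (fun l : Fin p ↦ t l))) := by
    have h3 : Continuous fun x : Fin p → ℂ_[p] ↦ V⁻¹.mulVec x :=
      Continuous.matrix_mulVec continuous_const continuous_id
    have h4 : Tendsto (fun N ↦ (fun l : Fin p ↦ w N l)) atTop (𝓝 (fun l : Fin p ↦ t l)) :=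
      tendsto_pi_nhds.2 fun l ↦ hlim l
    have h5 := (h3.tendsto _).comp h4
    refine h5.congr fun N ↦ ?_
    rw [h1 N]
    rfl
  rw [tendsto_pi_nhds] at h2
  let z : ℕ → ℂ_[p] := fun j ↦ if h : j < p then (V⁻¹.mulVec (fun l : Fin p ↦ t l)) ⟨j, h⟩ else 0
  have hz1 : ∀ j (h : j < p), z j = (V⁻¹.mulVec (fun l : Fin p ↦ t l)) ⟨j, h⟩ := by
    intro j h
    simp only [z, dif_pos h]
  have hz2 : ∀ j, j < p → Tendsto (fun N ↦ zN N j) atTop (𝓝 (z j)) := by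
    intro j h
    rw [hz1 j h]
    exact h2 ⟨j, h⟩
  refine ⟨z, fun j ↦ ?_, fun l ↦ ?_⟩
  · by_cases h : j < p
    · exact mem_closure_of_tendsto (hz2 j h) (Eventually.of_forall fun N ↦ hz N j)
    · have h3 : z j = 0 := by simp only [z, dif_neg h]
      rw [h3]
      exact subset_closure h0
  · have h3 : Tendsto (fun N ↦ cjs p ε β (zN N) l) atTop (𝓝 (cjs p ε β z l)) := by
      unfold cjs
      refine tendsto_finsetSum _ fun j hj ↦ ?_
      exact (hz2 j (Finset.mem_range.1 hj)).mul_const _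
    have h4 : Tendsto (fun N ↦ cjs p ε β (zN N) l) atTop (𝓝 (t l)) :=
      (hlim l).congr fun N ↦ hw N l
    exact tendsto_nhds_unique h3 h4

theorem iter_val {M H : Type} [Field M] [Field H] [NumberField H] [Algebra M H] (γ : H ≃ₐ[M] H)
    (v : (𝓞 H)ˣ) (l : ℕ) :
    ((((unitsHom γ)^[l] (Additive.ofMul v)).toMul : (𝓞 H)ˣ) : H) = (γ ^ l) (v : H) := by
  induction l with
  | zero => rfl
  | succ l ih =>
    rw [Function.iterate_succ_apply', pow_succ', AlgEquiv.mul_apply, ← ih]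
    rfl

end aux

theorem z_lim : Pool.Agent.Helper38.WY.Z_LIM := by
  intro p _ L M H M₁ H₁ _ _ _ _ _ _ _ _ _ _ _ _ γ γ₁ ε a s hsq hdeg hε ha hs hγs hγ hord τ u
    hb hlog y x hy hx
  have hp : p.Prime := Fact.out
  have hs0 : s ≠ 0 := by
    rintro rfl
    rw [zero_pow hp.ne_zero] at hs
    exact ha ((algebraMap M₁ H₁).injective (by rw [map_zero]; exact hs.symm))
  -- the extension of the embedding
  obtain ⟨τt, hτt⟩ : ∃ τt : H₁ →+* ℂ_[p], ∀ c : M₁, τt (algebraMap M₁ H₁ c) = τ c := by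
    let _ : Algebra M₁ ℂ_[p] := τ.toAlgebra
    have hfin : FiniteDimensional M₁ H₁ := FiniteDimensional.of_finrank_pos (by
      rw [hdeg]
      exact hp.pos)
    have halg : Algebra.IsAlgebraic M₁ H₁ := Algebra.IsAlgebraic.of_finite M₁ H₁
    let f : H₁ →ₐ[M₁] ℂ_[p] := IsAlgClosed.lift
    exact ⟨f, fun c ↦ f.commutes c⟩
  set τH : H →+* ℂ_[p] := τt.comp (algebraMap H H₁) with hτH
  have hτHM : ∀ c : M, τH (algebraMap M H c) = τ (algebraMap M M₁ c) := by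
    intro c
    rw [hτH, RingHom.comp_apply, ← hsq, hτt]
  set β : ℂ_[p] := τt s with hβ
  have hβ0 : β ≠ 0 := by
    rw [hβ]
    exact (map_ne_zero τt).2 hs0
  have hβp : β ^ p = τ a := by
    rw [hβ, ← map_pow, hs, hτt]
  obtain ⟨𝓗, hfd, hmem, -, -⟩ := Pool.Agent.Helper53.PW.l_clo p ℂ_[p] H₁ τt
  have hmemH : ∀ z : H, τH z ∈ 𝓗 := fun z ↦ hmem _
  choose b hb1 hb2 using hb
  obtain ⟨φ, B, hφ, hB, hlim⟩ := subs 𝓗 (fun N l ↦ τH ((γ ^ l) (b N : H)))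
    (fun N l ↦ hmemH _) (fun N l ↦ by
      have h1 := nu (τH.comp ((γ ^ l : H ≃ₐ[M] H) : H →+* H)) (b N)
      exact h1.le)
  have hnb : ∀ N l, ‖τH ((γ ^ l) (b N : H))‖ = 1 := fun N l ↦
    nu (τH.comp ((γ ^ l : H ≃ₐ[M] H) : H →+* H)) (b N)
  have hBn : ∀ l, ‖B l‖ = 1 := by
    intro l
    have h1 := (hlim l).norm
    have h2 : Tendsto (fun _ : ℕ ↦ (1 : ℝ)) atTop (𝓝 ‖B l‖) := h1.congr fun k ↦ hnb _ _
    exact (tendsto_nhds_unique h2 tendsto_const_nhds)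
  -- the conjugates of `y b`
  set w : ℕ → ℕ → ℂ_[p] := fun N l ↦ τH ((γ ^ l) ((y : H) * (b (φ N) : H))) with hw
  set t : ℕ → ℂ_[p] := fun l ↦ τH ((γ ^ l) (y : H)) * B l with ht
  have hwv : ∀ N l, w N l = τH ((γ ^ l) (y : H)) * τH ((γ ^ l) (b (φ N) : H)) := by
    intro N l
    rw [hw]
    simp only
    rw [map_mul, map_mul]
  have hwt : ∀ l, Tendsto (fun N ↦ w N l) atTop (𝓝 (t l)) := by
    intro l
    have h1 := (hlim l).const_mul (τH ((γ ^ l) (y : H)))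
    exact h1.congr fun N ↦ (hwv N l).symm
  have hy0 : ∀ l : ℕ, τH ((γ ^ l) (y : H)) ≠ 0 := by
    intro l
    rw [map_ne_zero τH]
    exact (map_ne_zero (γ ^ l)).2 y.ne_zero
  have hB0 : ∀ l, B l ≠ 0 := fun l h ↦ by
    have h1 := hBn l
    rw [h, norm_zero] at h1
    exact zero_ne_one h1
  have ht0 : ∀ l, t l ≠ 0 := fun l ↦ mul_ne_zero (hy0 l) (hB0 l)
  have htm : ∀ l, t l ∈ 𝓗 := fun l ↦ 𝓗.mul_mem (hmemH _) (hB l)
  have hgp : γ ^ p = 1 := by
    rw [← hord]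
    exact pow_orderOf_eq_one γ
  have hper : ∀ l, t (l + p) = t l := by
    intro l
    refine tendsto_nhds_unique (hwt (l + p)) ((hwt l).congr fun N ↦ ?_)
    rw [hw]
    simp only
    rw [pow_add, hgp, mul_one]
  -- the quotients
  have hstep : ∀ N l, w N (l + 1) = τH ((γ ^ l) (u (φ N) : H)) * w N l := by
    intro N l
    rw [hw]
    simp only
    rw [← map_mul, ← map_mul, pow_succ, AlgEquiv.mul_apply]
    congr 2
    rw [map_mul, hy]
    linear_combination (-(y : H)) * hb2 (φ N)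
  have hroot : ∀ l, ∃ n : ℕ, 0 < n ∧ t (l + 1) ^ n = t l ^ n := by
    intro l
    let e : ℂ_[p]ˣ := Units.mk0 (t (l + 1) / t l) (div_ne_zero (ht0 _) (ht0 _))
    have hem : (e : ℂ_[p]) ∈ 𝓗 := 𝓗.div_mem (htm _) (htm _)
    let wu : ℕ → ℂ_[p]ˣ := fun N ↦ Units.map
      (((τH.comp ((γ ^ l : H ≃ₐ[M] H) : H →+* H)).comp (algebraMap (𝓞 H) H) : 𝓞 H →+* ℂ_[p]) :
        𝓞 H →* ℂ_[p]) (u (φ N))
    have hwu : ∀ N, (wu N : ℂ_[p]) = τH ((γ ^ l) (u (φ N) : H)) := fun N ↦ rfl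
    have hw0 : ∀ N, w N l ≠ 0 := by
      intro N
      rw [hwv]
      refine mul_ne_zero (hy0 l) fun h ↦ ?_
      have h1 := hnb (φ N) l
      rw [h, norm_zero] at h1
      exact zero_ne_one h1
    have hlim1 : Tendsto (fun N ↦ (wu N : ℂ_[p])) atTop (𝓝 (e : ℂ_[p])) := by
      have h1 := (hwt (l + 1)).div (hwt l) (ht0 l)
      refine h1.congr fun N ↦ ?_
      rw [Pi.div_apply, hstep, mul_div_cancel_right₀ _ (hw0 N), hwu]
    have hen : ‖(e : ℂ_[p])‖ = 1 := by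
      have h1 := hlim1.norm
      have h2 : Tendsto (fun _ : ℕ ↦ (1 : ℝ)) atTop (𝓝 ‖(e : ℂ_[p])‖) := h1.congr fun k ↦ by
        rw [hwu]
        exact nu (τH.comp ((γ ^ l : H ≃ₐ[M] H) : H →+* H)) (u (φ k))
      exact (tendsto_nhds_unique h2 tendsto_const_nhds)
    have hLe : L.toFun e = 0 := by
      refine log_lim L wu e hlim1 ?_
      have h1 : ∀ N, ‖L.toFun (wu N)‖ ≤ (1 / p : ℝ) ^ N := by
        intro N
        have h2 := hlog (φ N) l τH (by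
          ext c
          rw [RingHom.comp_apply, hτHM, RingHom.comp_apply])
        have h3 : logUnits L τH ((unitsHom γ)^[l] (Additive.ofMul (u (φ N)))) = L.toFun (wu N) := by
          refine congrArg L.toFun (Units.ext ?_)
          exact congrArg τH (iter_val γ (u (φ N)) l)
        rw [h3] at h2
        refine h2.trans ?_
        refine pow_le_pow_of_le_one (by positivity) ?_ (hφ.id_le N)
        rw [div_le_one (by exact_mod_cast hp.pos)]
        exact_mod_cast hp.one_lt.le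
      refine squeeze_zero (fun N ↦ norm_nonneg _) h1 ?_
      refine tendsto_pow_atTop_nhds_zero_of_lt_one (by positivity) ?_
      rw [div_lt_one (by exact_mod_cast hp.pos)]
      exact_mod_cast hp.one_lt
    obtain ⟨n, hn, hn1⟩ := Pool.Agent.Helper35.WY.z_klg p L 𝓗 e hem hen hLe
    refine ⟨n, hn, ?_⟩
    have h1 : ((e : ℂ_[p])) ^ n = 1 := by
      rw [← Units.val_pow_eq_pow_val, hn1, Units.val_one]
    have h2 : (e : ℂ_[p]) = t (l + 1) / t l := rfl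
    rw [h2, div_pow, div_eq_one_iff_eq (pow_ne_zero _ (ht0 l))] at h1
    exact h1
  choose n hn hn1 using hroot
  have hn2 : ∀ l, t l ^ (∏ j ∈ Finset.range p, n j) = t 0 ^ (∏ j ∈ Finset.range p, n j) := by
    have hd : ∀ l, l < p → t (l + 1) ^ (∏ j ∈ Finset.range p, n j) =
        t l ^ (∏ j ∈ Finset.range p, n j) := by
      intro l hl
      obtain ⟨c, hc⟩ := Finset.dvd_prod_of_mem n (Finset.mem_range.2 hl)
      rw [hc, pow_mul, pow_mul, hn1]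
    have h1 : ∀ l, l < p → t l ^ (∏ j ∈ Finset.range p, n j) =
        t 0 ^ (∏ j ∈ Finset.range p, n j) := by
      intro l
      induction l with
      | zero => intro _; rfl
      | succ l ih =>
        intro hl
        rw [hd l (by omega), ih (by omega)]
    intro l
    have h2 : Function.Periodic t p := hper
    rw [← h2.map_mod_nat l]
    exact h1 _ (Nat.mod_lt _ hp.pos)
  -- the coefficients
  have hγp : ∀ (l : ℕ) (z : H), (γ₁ ^ l) (algebraMap H H₁ z) = algebraMap H H₁ ((γ ^ l) z) := by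
    intro l
    induction l with
    | zero => intro z; rfl
    | succ l ih =>
      intro z
      rw [pow_succ, AlgEquiv.mul_apply, hγ, ih, pow_succ, AlgEquiv.mul_apply]
  have hγsl : ∀ l : ℕ, (γ₁ ^ l) s = algebraMap M₁ H₁ ε ^ l * s := by
    intro l
    induction l with
    | zero => simp
    | succ l ih =>
      rw [pow_succ', AlgEquiv.mul_apply, ih, map_mul, map_pow, AlgEquiv.commutes, hγs, pow_succ]
      ring
  have hz : ∀ N, ∃ z : ℕ → M₁, algebraMap H H₁ ((y : H) * (b (φ N) : H)) =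
      ∑ j ∈ Finset.range p, algebraMap M₁ H₁ (z j) * s ^ j := fun N ↦
    Pool.Agent.Helper12.PW.gen_lt hp ε a s γ₁ hε hs0 hdeg hs hγs _
  choose zM hzM using hz
  have hεt : IsPrimitiveRoot (τ ε) p := hε.map_of_injective τ.injective
  obtain ⟨z, hz1, hz2⟩ := coef (τ ε) β hεt hβ0 (Set.range τ) ⟨0, map_zero τ⟩ w t
    (fun N j ↦ τ (zM N j)) (fun N j ↦ ⟨_, rfl⟩) (by
      intro N l
      have h1 : w N l = τt ((γ₁ ^ l) (algebraMap H H₁ ((y : H) * (b (φ N) : H)))) := by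
        rw [hγp]
        rfl
      rw [h1, hzM, map_sum, map_sum, cjs]
      refine Finset.sum_congr rfl fun j _ ↦ ?_
      rw [map_mul, map_pow, hγsl, AlgEquiv.commutes, map_mul, map_pow, map_mul, map_pow, hτt, hτt]) hwt
  refine ⟨β, z, ∏ j ∈ Finset.range p, n j, hβp, hz1, Finset.prod_pos fun j _ ↦ hn j, ?_, ?_⟩
  · have h1 : ∀ N, ∏ l ∈ Finset.range p, w N l = τ (algebraMap M M₁ (x : M)) := by
      intro N
      rw [hw]
      simp only
      rw [← map_prod, ← hτHM, hx]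
      congr 1
      have h2 : ∏ l ∈ Finset.range p, (γ ^ l) ((y : H) * (b (φ N) : H)) =
          (∏ l ∈ Finset.range p, (γ ^ l) (y : H)) * ∏ l ∈ Finset.range p, (γ ^ l) (b (φ N) : H) := by
        rw [← Finset.prod_mul_distrib]
        exact Finset.prod_congr rfl fun l _ ↦ map_mul _ _ _
      rw [h2, hb1, mul_one]
    have h2 : Tendsto (fun N ↦ ∏ l ∈ Finset.range p, w N l) atTop
        (𝓝 (∏ l ∈ Finset.range p, t l)) := tendsto_finsetProd _ fun l _ ↦ hwt l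
    have h3 : Tendsto (fun _ : ℕ ↦ τ (algebraMap M M₁ (x : M))) atTop
        (𝓝 (∏ l ∈ Finset.range p, t l)) := h2.congr h1
    have h4 := tendsto_nhds_unique h3 tendsto_const_nhds
    rw [← h4]
    exact Finset.prod_congr rfl fun l _ ↦ hz2 l
  · intro i
    rw [hz2, hz2]
    exact hn2 i

end Pool.Agent.Helper13.WY
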